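import Pool.Agent.Y256.Seg.Disc

open Set Filter Topology MeasureTheory

namespace Pool.Agent.Results.MP_e9c934_an.CodimTwoCells

/-- Euclidean `n`-space. -/
abbrev R (n : ℕ) := EuclideanSpace ℝ (Fin n)

/-- `f` has distortion at most `K` on the open set `Ω`: it is locally Lipschitz on `Ω` (so it lies
in `W^{1,∞}_loc(Ω)`, hence in `W^{1,n}_loc(Ω)`), and at almost every point `x` of `Ω`, `f` is
differentiable and `|f'(x) h|`, over unit vectors `h`, lies between some `m > 0` and `K m`. -/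
def DistortionLE {n : ℕ} (f : R n → R n) (Ω : Set (R n)) (K : ℝ) : Prop :=
  LocallyLipschitzOn Ω f ∧
    ∀ᵐ x ∂(volume.restrict Ω), DifferentiableAt ℝ f x ∧
      ∃ m : ℝ, 0 < m ∧ ∀ h : R n, m * ‖h‖ ≤ ‖fderiv ℝ f x h‖ ∧ ‖fderiv ℝ f x h‖ ≤ K * m * ‖h‖

/-- `f` is a local homeomorphism of `ℝⁿ \ S` of distortion at most `K`, and it is not injective on
`V \ S` for any neighbourhood `V` of any point of `S`. -/
def Singular {n : ℕ} (f : R n → R n) (S : Set (R n)) (K : ℝ) : Prop :=
  IsLocalHomeomorphOn f Sᶜ ∧ DistortionLE f Sᶜ K ∧ ∀ p ∈ S, ∀ V ∈ 𝓝 p, ¬ InjOn f (V \ S)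

/-- `I` is a removable singularity of `f` on `U \ I`: there is an open `V` with `I ⊆ V ⊆ U` such
that `f` is injective on `V \ I` and `f` restricted to `V \ I` extends to a homeomorphism of `V`
onto an open set. -/
def IsRemovable {n : ℕ} (I U : Set (R n)) (f : R n → R n) : Prop :=
  ∃ V : Set (R n), IsOpen V ∧ I ⊆ V ∧ V ⊆ U ∧ InjOn f (V \ I) ∧
    ∃ g : OpenPartialHomeomorph (R n) (R n), g.source = V ∧ EqOn g f (V \ I)

/-- The closed ball of radius `ρ` and centre `c` in the affine subspace `A`. -/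
def disc {n : ℕ} (A : AffineSubspace ℝ (R n)) (c : R n) (ρ : ℝ) : Set (R n) :=
  {x | x ∈ A ∧ dist x c ≤ ρ}

theorem singular_of_wild {n : ℕ} {f : R n → R n} {S : Set (R n)} (hS : IsClosed S) {K : ℝ}
    (h : Pool.Agent.Y256.Seg.Wild K S f) : Singular f S K := by
  obtain ⟨a1, a2⟩ := Pool.Agent.Y256.Seg.ae_distortion volume f Sᶜ hS.isOpen_compl K
    (fun x hx => h.bl x hx)
  refine ⟨h.lh, ⟨a1, a2⟩, ?_⟩
  intro p hp V hV hinj
  obtain ⟨y, hy, z, hz, hy', hz', hne, heq⟩ := h.ni p hp V hV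
  exact hne (hinj ⟨hy, hy'⟩ ⟨hz, hz'⟩ heq)

theorem isClosed_disc {n : ℕ} (A : AffineSubspace ℝ (R n)) (c : R n) (ρ : ℝ) :
    IsClosed (disc A c ρ) :=
  (AffineSubspace.closed_of_finiteDimensional A).inter
    (isClosed_le (continuous_id.dist continuous_const) continuous_const)

theorem segment_eq_disc (a b : R 3) :
    segment ℝ a b = disc (affineSpan ℝ {a, b}) (midpoint ℝ a b) (dist a b / 2) := by
  ext x
  have key : ∀ t : ℝ, dist (AffineMap.lineMap a b t) (midpoint ℝ a b) = |t - 1 / 2| * dist a b := by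
    intro t
    have e : midpoint ℝ a b = AffineMap.lineMap a b (1 / 2 : ℝ) := by
      rw [midpoint, invOf_eq_inv, one_div]
    rw [e, dist_lineMap_lineMap, Real.dist_eq]
  constructor
  · intro hx
    rw [segment_eq_image_lineMap] at hx
    obtain ⟨t, ⟨ht0, ht1⟩, rfl⟩ := hx
    refine ⟨AffineMap.lineMap_mem_affineSpan_pair t a b, ?_⟩
    rw [key]
    have h1 : |t - 1 / 2| ≤ 1 / 2 := by
      rw [abs_le]; constructor <;> linarith
    have h2 : 0 ≤ dist a b := dist_nonneg
    nlinarith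
  · rintro ⟨hxA, hxd⟩
    obtain ⟨t, rfl⟩ : ∃ t : ℝ, AffineMap.lineMap a b t = x := by
      rw [← vsub_vadd x a, vadd_left_mem_affineSpan_pair] at hxA
      obtain ⟨r, hr⟩ := hxA
      exact ⟨r, by rw [AffineMap.lineMap_apply, hr, vsub_vadd]⟩
    rw [segment_eq_image_lineMap]
    rcases eq_or_ne a b with h | h
    · subst h
      exact ⟨0, by simp, by simp⟩
    · have hd : 0 < dist a b := dist_pos.2 h
      rw [key] at hxd
      have h1 : |t - 1 / 2| ≤ 1 / 2 := by
        by_contra hcon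
        push Not at hcon
        nlinarith
      rw [abs_le] at h1
      exact ⟨t, ⟨by linarith [h1.1], by linarith [h1.2]⟩, rfl⟩

theorem not_removable {n : ℕ} {f : R n → R n} {S : Set (R n)} {K : ℝ} (h : Singular f S K)
    (hS : S.Nonempty) (U : Set (R n)) : ¬ IsRemovable S U f := by
  obtain ⟨p, hp⟩ := hS
  rintro ⟨V, hV, hIV, -, hinj, -⟩
  exact h.2.2 p hp V (hV.mem_nhds (hIV hp)) hinj

/-- There is one constant `K` such that, for every `n ≥ 3`, every closed ball `D` of positive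
radius in an affine subspace of dimension `n - 2` of `ℝⁿ` and every homeomorphism `h` of `ℝⁿ` that
is bi-Lipschitz with constant `L`, there is a local homeomorphism `f : ℝⁿ \ h(D) → ℝⁿ` of
distortion at most `K L²` that is not injective near any point of the cell `h(D)`; in particular
`h(D)` is not a removable singularity of `f` on `U \ h(D)` for any open `U ⊇ h(D)`.

For `n = 3` and `h` the identity the sets `D` are exactly the nondegenerate segments `[a, b]` of
`ℝ³` (second clause). -/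
theorem result : ∃ K : ℝ,
    (∀ n : ℕ, 3 ≤ n → ∀ A : AffineSubspace ℝ (R n), Module.finrank ℝ A.direction + 2 = n →
      ∀ c ∈ A, ∀ ρ : ℝ, 0 < ρ → ∀ (h : R n ≃ₜ R n) (L : ℝ), 0 < L →
      (∀ x y, dist (h x) (h y) ≤ L * dist x y ∧ dist x y ≤ L * dist (h x) (h y)) →
      ∃ f : R n → R n, Singular f (h '' disc A c ρ) (K * L ^ 2) ∧
        ∀ U : Set (R n), IsOpen U → h '' disc A c ρ ⊆ U →
          ¬ IsRemovable (h '' disc A c ρ) U f) ∧
    (∀ a b : R 3, a ≠ b → ∃ f : R 3 → R 3, Singular f (segment ℝ a b) K ∧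
      ∀ U : Set (R 3), IsOpen U → segment ℝ a b ⊆ U → ¬ IsRemovable (segment ℝ a b) U f) := by
  obtain ⟨K, hK1, hK⟩ := Pool.Agent.Y256.Seg.wild_disc
  refine ⟨K, ?_, ?_⟩
  · intro n hn A hA c hc ρ hρ h L hL hh
    obtain ⟨f, hf⟩ := hK (R n) A (by rw [finrank_euclideanSpace_fin]; exact hn)
      (by rw [finrank_euclideanSpace_fin]; exact hA) c hc ρ hρ
    have hf2 := hf.comp_homeo (by linarith) hL h.symm
      (fun x y => by
        have := (hh (h.symm x) (h.symm y)).2
        simpa using this)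
      (fun x y => by
        have := (hh (h.symm x) (h.symm y)).1
        simpa using this)
    have himg : h.symm ⁻¹' {x | x ∈ A ∧ dist x c ≤ ρ} = h '' disc A c ρ := by
      rw [h.image_eq_preimage_symm]; rfl
    rw [himg] at hf2
    have hS := singular_of_wild (h.isClosedMap _ (isClosed_disc A c ρ)) hf2
    exact ⟨_, hS, fun U _ _ => not_removable hS
      ⟨h c, mem_image_of_mem _ ⟨hc, by rw [dist_self]; exact hρ.le⟩⟩ U⟩
  · intro a b hab
    obtain ⟨f, hf⟩ := hK (R 3) (affineSpan ℝ {a, b})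
      (by rw [finrank_euclideanSpace_fin])
      (by
        rw [finrank_euclideanSpace_fin, direction_affineSpan, vectorSpan_pair,
          finrank_span_singleton (vsub_ne_zero.2 hab)]) (midpoint ℝ a b)
      (AffineMap.lineMap_mem_affineSpan_pair _ a b)
      (dist a b / 2) (by have := dist_pos.2 hab; linarith)
    have hs : Pool.Agent.Y256.Seg.Wild K (segment ℝ a b) f := by
      rw [segment_eq_disc]; exact hf
    have hS := singular_of_wild (segment_eq_disc a b ▸ isClosed_disc _ _ _) hs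
    exact ⟨f, hS, fun U _ _ => not_removable hS ⟨a, left_mem_segment ℝ _ _⟩ U⟩

end Pool.Agent.Results.MP_e9c934_an.CodimTwoCells
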